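import Pool.Agent.Helper5.NE.Stmts

/-! Packet P14 (FactStmt) of MP_d99be0_an. -/

namespace Pool.Agent.Helper77.NE

open Pool.Agent.Helper5.NE
open scoped InnerProductSpace ComplexConjugate ENNReal Topology
open Filter

noncomputable section

/-! ### Finite fibres -/

/-- finite fibres of iterates -/
lemma iter_fib {par : X → X}
    (h : ∃ B : ℕ, ∀ z, ∃ s : Finset X, s.card ≤ B ∧ ∀ u, par u = z → u ∈ s) (a : ℕ) :
    ∃ B : ℕ, ∀ z, ∃ s : Finset X, s.card ≤ B ∧ ∀ u, par^[a] u = z → u ∈ s := by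
  classical
  obtain ⟨B, hB⟩ := h
  choose s hs1 hs2 using hB
  induction a with
  | zero => exact ⟨1, fun z => ⟨{z}, by simp, fun u hu => by simpa using hu⟩⟩
  | succ a ih =>
    obtain ⟨B', hB'⟩ := ih
    choose s' hs1' hs2' using hB'
    refine ⟨B' * B, fun z => ⟨(s' z).biUnion s, ?_, fun u hu => ?_⟩⟩
    · refine Finset.card_biUnion_le.trans
        ((Finset.sum_le_card_nsmul _ _ B (fun w _ => hs1 w)).trans ?_)
      rw [smul_eq_mul]
      exact Nat.mul_le_mul_right _ (hs1' z)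
    · rw [Function.iterate_succ_apply] at hu
      exact Finset.mem_biUnion.2 ⟨par u, hs2' z _ hu, hs2 _ u rfl⟩

/-- finite sets of points below a given point -/
lemma fib_all {par π : X → X} (hT : Tree par π) (L : ℕ) :
    ∃ N : ℕ, ∀ z, ∃ s : Finset X, s.card ≤ N ∧ ∀ u, u ∈ s ↔ ∃ a < L, par^[a] (π u) = z := by
  classical
  choose B hB using fun a => iter_fib hT.fpar a
  choose s hs1 hs2 using hB
  obtain ⟨B', hB'⟩ := hT.fpi
  choose s' hs1' hs2' using hB'
  refine ⟨∑ a ∈ Finset.range L, B a * B', fun z =>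
    ⟨((Finset.range L).biUnion (fun a => (s a z).biUnion s')).filter
      (fun u => ∃ a < L, par^[a] (π u) = z), ?_, fun u => ?_⟩⟩
  · refine (Finset.card_filter_le _ _).trans (Finset.card_biUnion_le.trans ?_)
    refine Finset.sum_le_sum (fun a _ => ?_)
    refine Finset.card_biUnion_le.trans
        ((Finset.sum_le_card_nsmul _ _ B' (fun w _ => hs1' w)).trans ?_)
    rw [smul_eq_mul]
    exact Nat.mul_le_mul_right _ (hs1 a z)
  · rw [Finset.mem_filter]
    refine ⟨fun h => h.2, fun h => ⟨?_, h⟩⟩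
    obtain ⟨a, ha, hu⟩ := h
    exact Finset.mem_biUnion.2 ⟨a, Finset.mem_range.2 ha,
      Finset.mem_biUnion.2 ⟨π u, hs2 a z _ hu, hs2' _ u rfl⟩⟩

open Classical in
/-- the points above a given point -/
def up (par π : X → X) (L : ℕ) (u : X) : Finset X :=
  (Finset.range L).image (fun a => par^[a] (π u))

lemma mem_up {par π : X → X} {L : ℕ} {u z : X} :
    z ∈ up par π L u ↔ ∃ a < L, par^[a] (π u) = z := by
  unfold up
  simp only [Finset.mem_image, Finset.mem_range]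

lemma card_up {par π : X → X} (hT : Tree par π) (L : ℕ) (u : X) :
    (up par π L u).card = L := by
  classical
  unfold up
  rw [Finset.card_image_of_injective _ (hT.inj (π u)), Finset.card_range]

open Classical in
/-- the kernel -/
def ker (par π : X → X) (L : ℕ) (u v : X) : ℝ :=
  ((up par π L u ∩ up par π L v).card : ℝ) / L

lemma ker_nonneg (par π : X → X) (L : ℕ) (u v : X) : 0 ≤ ker par π L u v := by
  unfold ker
  positivity

lemma ker_le_one {par π : X → X} (hT : Tree par π) (L : ℕ) (u v : X) :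
    ker par π L u v ≤ 1 := by
  classical
  unfold ker
  refine div_le_one_of_le₀ ?_ (by positivity)
  have h : (up par π L u ∩ up par π L v).card ≤ L := by
    refine (Finset.card_le_card Finset.inter_subset_left).trans ?_
    rw [card_up hT]
  exact_mod_cast h

lemma ker_ge {par π : X → X} (hT : Tree par π) {L : ℕ} (hL : 0 < L) {u v : X} {a b d : ℕ}
    (ha : a ≤ d) (hb : b ≤ d) (h : par^[a] (π u) = par^[b] (π v)) :
    1 - (d : ℝ) / L ≤ ker par π L u v := by
  classical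
  have hsub : (Finset.range (L - d)).image (fun t => par^[t + a] (π u)) ⊆
      up par π L u ∩ up par π L v := by
    intro z hz
    obtain ⟨t, ht, rfl⟩ := Finset.mem_image.1 hz
    have ht' := Finset.mem_range.1 ht
    rw [Finset.mem_inter, mem_up, mem_up]
    refine ⟨⟨t + a, by omega, rfl⟩, t + b, by omega, ?_⟩
    rw [Function.iterate_add_apply, Function.iterate_add_apply, h]
  have hinj : Function.Injective (fun t => par^[t + a] (π u)) := by
    intro t t' htt
    have := hT.inj (π u) htt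
    omega
  have hcard : L - d ≤ (up par π L u ∩ up par π L v).card := by
    have h1 := Finset.card_le_card hsub
    rwa [Finset.card_image_of_injective _ hinj, Finset.card_range] at h1
  unfold ker
  have hL' : (0 : ℝ) < L := by exact_mod_cast hL
  rw [le_div_iff₀ hL', sub_mul, one_mul, div_mul_cancel₀ _ hL'.ne']
  have h2 : (L : ℝ) ≤ ((up par π L u ∩ up par π L v).card : ℝ) + d := by
    have : L ≤ (up par π L u ∩ up par π L v).card + d := by omega
    exact_mod_cast this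
  linarith

/-! ### The partial isometries -/

lemma exists_P (s : Finset X) (N : ℕ) (h : s.card ≤ N) :
    ∃ P : L2 X →L[ℂ] EuclideanSpace ℂ (Fin N), ∀ η ξ,
      ⟪P η, P ξ⟫_ℂ = ∑ u ∈ s, conj ((η : X → ℂ) u) * (ξ : X → ℂ) u := by
  classical
  set e : s → Fin N := fun u => Fin.castLE h (s.equivFin u) with he
  have he' : Function.Injective e := fun u v huv => by
    have h1 : s.equivFin u = s.equivFin v := Fin.castLE_injective h huv
    exact s.equivFin.injective h1
  have ho : Orthonormal ℂ (fun u : s =>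
      (EuclideanSpace.single (e u) (1 : ℂ) : EuclideanSpace ℂ (Fin N))) :=
    EuclideanSpace.orthonormal_single.comp e he'
  refine ⟨∑ u : s, (innerSL ℂ (del (u : X))).smulRight (EuclideanSpace.single (e u) 1),
    fun η ξ => ?_⟩
  simp only [sum_apply, ContinuousLinearMap.smulRight_apply,
    innerSL_apply_apply, inner_del_left]
  rw [ho.inner_sum]
  exact Finset.sum_coe_sort s (fun u => conj ((η : X → ℂ) u) * (ξ : X → ℂ) u)

lemma P_norm_sq {s : Finset X} {N : ℕ} {P : L2 X →L[ℂ] EuclideanSpace ℂ (Fin N)}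
    (hP : ∀ η ξ, ⟪P η, P ξ⟫_ℂ = ∑ u ∈ s, conj ((η : X → ℂ) u) * (ξ : X → ℂ) u) (ξ : L2 X) :
    ‖P ξ‖ ^ 2 = ∑ u ∈ s, ‖(ξ : X → ℂ) u‖ ^ 2 := by
  have h := hP ξ ξ
  rw [inner_self_eq_norm_sq_to_K] at h
  have h2 : ∀ u, conj ((ξ : X → ℂ) u) * (ξ : X → ℂ) u = ((‖(ξ : X → ℂ) u‖ ^ 2 : ℝ) : ℂ) := by
    intro u
    rw [Complex.conj_mul']
    push_cast
    rfl
  rw [Finset.sum_congr rfl (fun u _ => h2 u), ← Complex.ofReal_sum] at h
  refine Complex.ofReal_injective ?_
  rw [← h]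
  push_cast
  rfl

lemma P_norm_le {s : Finset X} {N : ℕ} {P : L2 X →L[ℂ] EuclideanSpace ℂ (Fin N)}
    (hP : ∀ η ξ, ⟪P η, P ξ⟫_ℂ = ∑ u ∈ s, conj ((η : X → ℂ) u) * (ξ : X → ℂ) u) :
    ‖P‖ ≤ 1 := by
  refine ContinuousLinearMap.opNorm_le_bound _ zero_le_one (fun ξ => ?_)
  rw [one_mul]
  have h1 : ‖P ξ‖ ^ 2 ≤ ‖ξ‖ ^ 2 := by
    rw [P_norm_sq hP, norm_sq_eq]
    exact (sq_summable ξ).sum_le_tsum s (fun _ _ => by positivity)
  exact (le_abs_self _).trans (abs_le_of_sq_le_sq h1 (by positivity))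

lemma P_del {s : Finset X} {N : ℕ} {P : L2 X →L[ℂ] EuclideanSpace ℂ (Fin N)}
    (hP : ∀ η ξ, ⟪P η, P ξ⟫_ℂ = ∑ u ∈ s, conj ((η : X → ℂ) u) * (ξ : X → ℂ) u) (u : X) [Decidable (u ∈ s)] :
    P.adjoint (P (del u)) = if u ∈ s then del u else 0 := by
  classical
  refine lp.ext (funext fun v => ?_)
  rw [← inner_del_left, ContinuousLinearMap.adjoint_inner_right, hP]
  have h1 : ∀ w ∈ s, conj ((del v : X → ℂ) w) * (del u : X → ℂ) w =
      if w = v then (del u : X → ℂ) w else 0 := by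
    intro w _
    rw [del_apply v w]
    split_ifs <;> simp
  rw [Finset.sum_congr rfl h1, Finset.sum_ite_eq' s v (fun w => (del u : X → ℂ) w)]
  by_cases huv : v = u
  · subst huv
    split_ifs <;> simp
  · rw [del_ne huv]
    split_ifs
    · rw [del_ne huv]
    · simp
    · rw [del_ne huv]
    · simp

/-! ### The maps `θ` -/

lemma double_sum {ι : Type} (g : ι → ℝ) (hg0 : ∀ u, 0 ≤ g u) (hg : Summable g)
    (A B : ι → Finset ι) (L : ℕ) (hA : ∀ u, (A u).card = L) (hAB : ∀ u z, u ∈ B z ↔ z ∈ A u) :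
    Summable (fun z => ∑ u ∈ B z, g u) ∧ ∑' z, ∑ u ∈ B z, g u = L * ∑' u, g u := by
  classical
  obtain ⟨G, hG⟩ : ∃ G : ι → ι → ℝ, ∀ u z, G u z = if z ∈ A u then g u else 0 := ⟨_, fun _ _ => rfl⟩
  have hG0 : ∀ u z, 0 ≤ G u z := fun u z => by
    rw [hG]; split_ifs
    · exact hg0 _
    · exact le_rfl
  have hrow : ∀ u, HasSum (fun z => G u z) (L * g u) := by
    intro u
    have h1 : (L : ℝ) * g u = ∑ z ∈ A u, G u z := by
      have h2 : ∀ z ∈ A u, G u z = g u := fun z hz => by rw [hG, if_pos hz]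
      rw [Finset.sum_congr rfl h2, Finset.sum_const, hA, nsmul_eq_mul]
    rw [h1]
    exact hasSum_sum_of_ne_finset_zero (fun z hz => by rw [hG, if_neg hz])
  have hcol : ∀ z, HasSum (fun u => G u z) (∑ u ∈ B z, g u) := by
    intro z
    have h1 : ∑ u ∈ B z, g u = ∑ u ∈ B z, G u z :=
      Finset.sum_congr rfl (fun u hu => by rw [hG, if_pos ((hAB u z).1 hu)])
    rw [h1]
    exact hasSum_sum_of_ne_finset_zero (fun u hu => by
      rw [hG, if_neg (fun h => hu ((hAB u z).2 h))])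
  have hsum : Summable (Function.uncurry G) := by
    have hnn : 0 ≤ Function.uncurry G := fun x => hG0 x.1 x.2
    refine (summable_prod_of_nonneg hnn).2 ⟨fun u => (hrow u).summable, ?_⟩
    have : (fun u => ∑' z, Function.uncurry G (u, z)) = fun u => (L : ℝ) * g u :=
      funext (fun u => (hrow u).tsum_eq)
    rw [this]
    exact hg.mul_left _
  constructor
  · have h1 := (hsum.prod_symm).prod
    have : (fun z => ∑' u, Function.uncurry G (Prod.swap (z, u))) = fun z => ∑ u ∈ B z, g u :=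
      funext (fun z => (hcol z).tsum_eq)
    rw [this] at h1
    exact h1
  · have h1 := hsum.tsum_comm
    rw [tsum_congr (fun z => (hcol z).tsum_eq), tsum_congr (fun u => (hrow u).tsum_eq),
      tsum_mul_left] at h1
    exact h1

lemma hasSum_ite_finset {ι : Type} [DecidableEq ι] (t : Finset ι) (c : ℂ) :
    HasSum (fun z => if z ∈ t then c else 0) (∑ _z ∈ t, c) := by
  have h1 : ∑ _z ∈ t, c = ∑ z ∈ t, if z ∈ t then c else 0 :=
    Finset.sum_congr rfl (fun z hz => by rw [if_pos hz])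
  rw [h1]
  exact hasSum_sum_of_ne_finset_zero (fun z hz => if_neg hz)

/-- the properties of `θ` -/
structure Theta (par π : X → X) (L : ℕ)
    (θ : (L2 X →L[ℂ] L2 X) →ₗ[ℂ] (L2 X →L[ℂ] L2 X)) : Prop where
  nle : ∀ T, ‖θ T‖ ≤ ‖T‖
  entry : ∀ T u v, (θ T (del u) : X → ℂ) v = (ker par π L u v : ℂ) * (T (del u) : X → ℂ) v
  fac : ∀ (F : Finset (L2 X →L[ℂ] L2 X)) (ε : ℝ), 0 < ε →
      ∃ (D : Type) (_ : CStarAlgebra D) (_ : FiniteDimensional ℂ D)
        (φ : (L2 X →L[ℂ] L2 X) →ₗ[ℂ] D) (ψ : D →ₗ[ℂ] (L2 X →L[ℂ] L2 X)), CCP φ ∧ CCP ψ ∧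
        ∀ T ∈ F, ‖ψ (φ T) - θ T‖ < ε

lemma exists_theta (h : BlkStmt) {par π : X → X} (hT : Tree par π) {L : ℕ} (hL : 0 < L) :
    ∃ θ, Theta par π L θ := by
  classical
  have hL' : (0 : ℝ) < L := by exact_mod_cast hL
  obtain ⟨N, hN⟩ := fib_all hT L
  choose s hs1 hs2 using hN
  choose P hP using fun z => exists_P (s z) N (hs1 z)
  have hmem : ∀ z u, u ∈ s z ↔ z ∈ up par π L u := fun z u => by rw [hs2, mem_up]
  -- the double sum
  have hdouble : ∀ ξ : L2 X, Summable (fun z => ‖P z ξ‖ ^ 2) ∧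
      ∑' z, ‖P z ξ‖ ^ 2 = L * ‖ξ‖ ^ 2 := by
    intro ξ
    have h1 := double_sum (fun u => ‖(ξ : X → ℂ) u‖ ^ 2) (fun u => by positivity)
      (sq_summable ξ) (up par π L) s L (card_up hT L) (fun u z => hmem z u)
    have h2 : (fun z => ‖P z ξ‖ ^ 2) = fun z => ∑ u ∈ s z, ‖(ξ : X → ℂ) u‖ ^ 2 :=
      funext (fun z => P_norm_sq (hP z) ξ)
    rw [h2, norm_sq_eq]
    exact h1
  obtain ⟨θ, h1, h2, h3⟩ := h X (L2 X) (EuclideanSpace ℂ (Fin N)) (fun z => (P z).adjoint)
    (1 / (L : ℝ)) (by positivity) (fun z => by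
      rw [LinearIsometryEquiv.norm_map]
      exact P_norm_le (hP z)) (fun ξ => by
      simp only [ContinuousLinearMap.adjoint_adjoint]
      refine ⟨(hdouble ξ).1, ?_⟩
      rw [(hdouble ξ).2]
      field_simp
      exact le_rfl)
  refine ⟨θ, h1, fun T u v => ?_, h3⟩
  have h4 := h2 T (del u) (del v)
  simp only [ContinuousLinearMap.adjoint_adjoint] at h4
  rw [← inner_del_left v (θ T (del u)), ← inner_del_left v (T (del u))]
  refine h4.unique ?_
  have h5 : (ker par π L u v : ℂ) * ⟪del v, T (del u)⟫_ℂ =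
      ∑ z ∈ up par π L u ∩ up par π L v, ((1 / (L : ℝ) : ℝ) : ℂ) * ⟪del v, T (del u)⟫_ℂ := by
    rw [Finset.sum_const, nsmul_eq_mul, ker]
    push_cast
    ring
  rw [h5]
  have h6 : ∀ z, ((1 / (L : ℝ) : ℝ) : ℂ) *
      ⟪(P z).adjoint (P z (del v)), T ((P z).adjoint (P z (del u)))⟫_ℂ =
      if z ∈ up par π L u ∩ up par π L v then
        ((1 / (L : ℝ) : ℝ) : ℂ) * ⟪del v, T (del u)⟫_ℂ else 0 := by
    intro z
    rw [P_del (hP z), P_del (hP z)]
    by_cases hu : z ∈ up par π L u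
    · by_cases hv : z ∈ up par π L v
      · rw [if_pos ((hmem z v).2 hv), if_pos ((hmem z u).2 hu),
          if_pos (Finset.mem_inter.2 ⟨hu, hv⟩)]
      · rw [if_neg (fun h => hv ((hmem z v).1 h)), inner_zero_left, mul_zero,
          if_neg (fun h => hv (Finset.mem_inter.1 h).2)]
    · rw [if_neg (fun h => hu ((hmem z u).1 h)), map_zero, inner_zero_right, mul_zero,
          if_neg (fun h => hu (Finset.mem_inter.1 h).1)]
  rw [funext h6]
  exact hasSum_ite_finset _ _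

/-! ### Convergence -/

lemma theta_conv_closed {θ : ℕ → (L2 X →L[ℂ] L2 X) →ₗ[ℂ] (L2 X →L[ℂ] L2 X)}
    (hθ : ∀ n T, ‖θ n T‖ ≤ ‖T‖) :
    IsClosed {T | Tendsto (fun n => θ n T) atTop (𝓝 T)} := by
  rw [← isSeqClosed_iff_isClosed]
  intro x T hx hxT
  rw [Set.mem_ofPred_eq, Metric.tendsto_atTop]
  intro ε hε
  rw [Metric.tendsto_atTop] at hxT
  obtain ⟨m, hm⟩ := hxT (ε / 3) (by positivity)
  have hm' := hm m le_rfl
  have hxm := hx m
  rw [Set.mem_ofPred_eq, Metric.tendsto_atTop] at hxm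
  obtain ⟨N, hN⟩ := hxm (ε / 3) (by positivity)
  refine ⟨N, fun n hn => ?_⟩
  have h1 := hN n hn
  rw [dist_eq_norm] at h1 hm' ⊢
  have h2 : θ n T - T = θ n (T - x m) + (θ n (x m) - x m) + (x m - T) := by
    rw [map_sub]
    abel
  rw [h2]
  have h3 := hθ n (T - x m)
  rw [norm_sub_rev] at hm'
  have h4 := norm_add_le (θ n (T - x m) + (θ n (x m) - x m)) (x m - T)
  have h5 := norm_add_le (θ n (T - x m)) (θ n (x m) - x m)
  have h6 := norm_sub_rev (x m) T
  linarith

/-- the submodule of the operators on which `θ` converges to the identity -/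
def convS (θ : ℕ → (L2 X →L[ℂ] L2 X) →ₗ[ℂ] (L2 X →L[ℂ] L2 X)) :
    Submodule ℂ (L2 X →L[ℂ] L2 X) where
  carrier := {T | Tendsto (fun n => θ n T) atTop (𝓝 T)}
  add_mem' := by
    intro S T hS hT
    have := Tendsto.add hS hT
    simpa only [Set.mem_ofPred_eq, map_add] using this
  zero_mem' := by
    simp only [Set.mem_ofPred_eq, map_zero]
    exact tendsto_const_nhds
  smul_mem' := by
    intro c T hT
    have := Tendsto.const_smul hT c
    simpa only [Set.mem_ofPred_eq, map_smul] using this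

lemma mem_convS {θ : ℕ → (L2 X →L[ℂ] L2 X) →ₗ[ℂ] (L2 X →L[ℂ] L2 X)} {T : L2 X →L[ℂ] L2 X} :
    T ∈ convS θ ↔ Tendsto (fun n => θ n T) atTop (𝓝 T) := Iff.rfl

/-- a closed submodule containing the `rk (del v) (del u)` contains all `rk ξ η` -/
lemma rk_mem {V : Submodule ℂ (L2 X →L[ℂ] L2 X)} (hV : IsClosed (V : Set (L2 X →L[ℂ] L2 X)))
    (h : ∀ u v, rk (del v) (del u) ∈ V) (ξ η : L2 X) : rk ξ η ∈ V := by
  have h1 : ∀ u ξ, rk ξ (del u) ∈ V := by
    intro u ξ
    have h2 := ((InnerProductSpace.rankOne ℂ (E := L2 X) (F := L2 X)).flip (del u)).hasSum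
      (hasSum_del ξ)
    refine hV.mem_of_tendsto h2 (Eventually.of_forall (fun s => ?_))
    refine Submodule.sum_mem _ (fun v _ => ?_)
    rw [map_smul]
    exact Submodule.smul_mem _ _ (h u v)
  have h2 := (InnerProductSpace.rankOne ℂ (E := L2 X) (F := L2 X) ξ).hasSum (hasSum_del η)
  refine hV.mem_of_tendsto h2 (Eventually.of_forall (fun s => ?_))
  refine Submodule.sum_mem _ (fun v _ => ?_)
  rw [map_smulₛₗ]
  exact Submodule.smul_mem _ _ (h1 v ξ)

lemma wp_sub (σ : Equiv.Perm X) {c d : X → ℂ} (hc : Bd c) (hd : Bd d)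
    (hcd : Bd (fun u => c u - d u)) : wp σ c - wp σ d = wp σ (fun u => c u - d u) := by
  refine ext_del (fun u => ?_)
  rw [sub_apply, wp_del _ hc, wp_del _ hd, wp_del _ hcd, sub_smul]

lemma theta_wp {par π : X → X} (hT : Tree par π) {L : ℕ} (hL : 0 < L)
    {θ : (L2 X →L[ℂ] L2 X) →ₗ[ℂ] (L2 X →L[ℂ] L2 X)} (hθ : Theta par π L θ)
    {σ : Equiv.Perm X} {c : X → ℂ} {C : ℝ} (hc : ∀ u, ‖c u‖ ≤ C) {d : ℕ}
    (hd : ∀ u, c u ≠ 0 → ∃ a ≤ d, ∃ b ≤ d, par^[a] (π u) = par^[b] (π (σ u))) :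
    ‖θ (wp σ c) - wp σ c‖ ≤ (d : ℝ) / L * C := by
  have hL' : (0 : ℝ) < L := by exact_mod_cast hL
  have hC : 0 ≤ C := (norm_nonneg _).trans (hc (RW.nil, 0))
  have hcb : Bd c := ⟨C, hc⟩
  have hk : ∀ u v, ‖((ker par π L u v : ℝ) : ℂ)‖ ≤ 1 := fun u v => by
    rw [Complex.norm_real, Real.norm_of_nonneg (ker_nonneg par π L u v)]
    exact ker_le_one hT L u v
  have hcb' : Bd (fun u => (ker par π L u (σ u) : ℂ) * c u) := by
    refine ⟨C, fun u => ?_⟩
    rw [norm_mul]
    have h1 := hk u (σ u)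
    have h2 := hc u
    have h3 := norm_nonneg (c u)
    nlinarith
  have h1 : θ (wp σ c) = wp σ (fun u => (ker par π L u (σ u) : ℂ) * c u) := by
    refine ext_del (fun u => lp.ext (funext fun v => ?_))
    rw [hθ.entry, wp_del _ hcb, wp_del _ hcb', lp.coeFn_smul, lp.coeFn_smul, Pi.smul_apply,
      Pi.smul_apply, smul_eq_mul, smul_eq_mul]
    by_cases hv : v = σ u
    · subst hv
      ring
    · rw [del_ne hv]
      ring
  have h4 : ∀ u, ‖(ker par π L u (σ u) : ℂ) * c u - c u‖ ≤ (d : ℝ) / L * C := by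
    intro u
    by_cases hcu : c u = 0
    · rw [hcu, mul_zero, sub_zero, norm_zero]
      positivity
    · obtain ⟨a, ha, b, hb, hab⟩ := hd u hcu
      have h5 := ker_ge hT hL ha hb hab
      have h6 := ker_le_one hT L u (σ u)
      have h7 : (ker par π L u (σ u) : ℂ) * c u - c u =
          (((ker par π L u (σ u) - 1 : ℝ)) : ℂ) * c u := by
        push_cast
        ring
      rw [h7, norm_mul, Complex.norm_real, Real.norm_eq_abs, abs_of_nonpos (by linarith)]
      exact mul_le_mul (by linarith) (hc u) (norm_nonneg _) (by positivity)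
  rw [h1, wp_sub σ hcb' hcb ⟨_, h4⟩]
  exact wp_norm_le σ (by positivity) h4

lemma theta_rk {par π : X → X} (hT : Tree par π) {L : ℕ} (hL : 0 < L)
    {θ : (L2 X →L[ℂ] L2 X) →ₗ[ℂ] (L2 X →L[ℂ] L2 X)} (hθ : Theta par π L θ)
    {u v : X} {a b d : ℕ} (ha : a ≤ d) (hb : b ≤ d) (hab : par^[a] (π u) = par^[b] (π v)) :
    ‖θ (rk (del v) (del u)) - rk (del v) (del u)‖ ≤ (d : ℝ) / L := by
  have hL' : (0 : ℝ) < L := by exact_mod_cast hL
  have h1 : θ (rk (del v) (del u)) = (ker par π L u v : ℂ) • rk (del v) (del u) := by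
    refine ext_del (fun w => lp.ext (funext fun v' => ?_))
    have e1 : (rk (del v) (del u) (del w) : X → ℂ) v' =
        (del w : X → ℂ) u * (del v : X → ℂ) v' := by
      rw [InnerProductSpace.rankOne_apply, inner_del_left]
      rfl
    have e2 : (((ker par π L u v : ℂ) • rk (del v) (del u)) (del w) : X → ℂ) v' =
        (ker par π L u v : ℂ) * (rk (del v) (del u) (del w) : X → ℂ) v' := rfl
    rw [hθ.entry, e2, e1]
    by_cases hw : u = w
    · by_cases hv : v' = v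
      · rw [hw, hv]
      · rw [del_ne hv, mul_zero, mul_zero, mul_zero]
    · rw [del_ne hw, zero_mul, mul_zero, mul_zero]
  have h5 := ker_ge hT hL ha hb hab
  have h6 := ker_le_one hT L u v
  have h7 : (ker par π L u v : ℂ) • rk (del v) (del u) - rk (del v) (del u) =
      ((ker par π L u v - 1 : ℝ) : ℂ) • rk (del v) (del u) := by
    push_cast
    rw [sub_smul, one_smul]
  rw [h1, h7, norm_smul, InnerProductSpace.norm_rankOne, norm_del, norm_del, Complex.norm_real,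
    Real.norm_eq_abs, abs_of_nonpos (by linarith)]
  linarith

lemma conv_of_bound {θ : ℕ → (L2 X →L[ℂ] L2 X) →ₗ[ℂ] (L2 X →L[ℂ] L2 X)}
    {T : L2 X →L[ℂ] L2 X} (K : ℝ) (h : ∀ n : ℕ, ‖θ n T - T‖ ≤ K / ((n + 1 : ℕ) : ℝ)) :
    T ∈ convS θ := by
  rw [mem_convS, tendsto_iff_norm_sub_tendsto_zero]
  refine squeeze_zero (fun n => norm_nonneg _) h ?_
  exact (tendsto_const_div_atTop_nhds_zero_nat K).comp (tendsto_add_atTop_nat 1)

/-- Packet P14. -/
theorem fact (h : BlkStmt) : FactStmt := by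
  intro par π hT F hF ε hε
  choose θ hθ using fun n : ℕ => exists_theta h hT (Nat.succ_pos n)
  have hNN : NN par π ≤ convS θ := by
    refine Submodule.span_le.2 ?_
    rintro T (⟨σ, c, ⟨⟨C, hc⟩, d, hd⟩, rfl⟩ | ⟨ξ, η, rfl⟩)
    · refine conv_of_bound (d * C) (fun n => ?_)
      refine (theta_wp hT (Nat.succ_pos n) (hθ n) hc hd).trans (le_of_eq ?_)
      ring
    · refine rk_mem (theta_conv_closed (fun n => (hθ n).nle)) (fun u v => ?_) ξ η
      obtain ⟨a, b, hab⟩ := hT.merge (π u) (π v)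
      refine conv_of_bound ((max a b : ℕ) : ℝ) (fun n => ?_)
      exact theta_rk hT (Nat.succ_pos n) (hθ n) (le_max_left a b) (le_max_right a b) hab
  have hev : ∀ᶠ n in atTop, ∀ T ∈ F, ‖θ n T - T‖ < ε / 2 := by
    rw [Filter.eventually_all_finset]
    intro T hTF
    have h1 := mem_convS.1 (hNN (hF T hTF))
    rw [Metric.tendsto_nhds] at h1
    exact (h1 (ε / 2) (by positivity)).mono (fun n hn => by rwa [dist_eq_norm] at hn)
  obtain ⟨n, hn⟩ := hev.exists
  obtain ⟨D, i1, i2, φ, ψ, h1, h2, h3⟩ := (hθ n).fac F (ε / 2) (by positivity)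
  refine ⟨D, i1, i2, φ, ψ, h1, h2, fun T hTF => ?_⟩
  have h4 : ψ (φ T) - T = (ψ (φ T) - θ n T) + (θ n T - T) := by abel
  rw [h4]
  have h5 := norm_add_le (ψ (φ T) - θ n T) (θ n T - T)
  have h6 := h3 T hTF
  have h7 := hn T hTF
  linarith

end

end Pool.Agent.Helper77.NE
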